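import Pool.Agent.Run7.h432.AC.Stm2

/-!
# Piece GRAD of the project of helper432 on MP_4b1745_al
-/

set_option autoImplicit false

namespace Run7.h432.AC

open MvPolynomial TensorProduct

theorem p_GRAD : S_GRAD := by
  intro E _ _ _ hE
  obtain ⟨a, ha⟩ := hE (X ((), 1, 0) - 1) (by
    rintro ⟨e, he⟩
    have h0 := congrArg (eval (fun _ => (0 : E))) he
    have h1 := congrArg (eval (fun _ => (1 : E))) he
    simp at h0 h1
    rw [h1] at h0
    norm_num at h0)
  obtain ⟨b, hb⟩ := hE (X ((), 0, 1) - C (DD.d2 a) * X ((), 1, 0) - 1) (by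
    rintro ⟨e, he⟩
    have h0 := congrArg (eval (fun _ => (0 : E))) he
    have h1 := congrArg (eval (fun v : Unit × ℕ × ℕ => if v.2.1 = 0 then (1 : E) else 0)) he
    simp at h0 h1
    rw [h1] at h0
    norm_num at h0)
  refine ⟨a, b, ?_⟩
  simp [jets] at ha hb
  have h1 : DD.d1 a = (1 : E) := sub_eq_zero.mp ha
  have h2 : DD.d1 a * DD.d2 b - DD.d2 a * DD.d1 b = (1 : E) := by
    rw [h1]
    linear_combination hb
  rw [h2]
  exact one_ne_zero

end Run7.h432.AC
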