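import Pool.Agent.Run7.h432.AC.Stm2

/-!
# Piece HN of the project of helper432 on MP_4b1745_al
-/

set_option autoImplicit false

namespace Run7.h432.AC

open MvPolynomial TensorProduct
open Pool.Agent.Results.MP_4b1745_al.OneVariable

section
variable {P R : Type} [Field P] [Ring R] [Algebra P R]

theorem Hn_zero : Hn P R 0 = LinearMap.range (const P R Unit).toLinearMap := rfl

theorem Hn_succ (n : ℕ) : Hn P R (n + 1) = Submodule.span P {z | ∃ a : R, ∃ g ∈ Hn P R n,
      z = const P R Unit a * var P R Unit () * g} := rfl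

theorem const_mul_Hn (a : R) (n : ℕ) (g : FreeOver P R Unit) (hg : g ∈ Hn P R n) :
    const P R Unit a * g ∈ Hn P R n := by
  cases n with
  | zero =>
    rw [Hn_zero] at hg ⊢
    obtain ⟨b, rfl⟩ := hg
    refine ⟨a * b, ?_⟩
    change const P R Unit (a * b) = const P R Unit a * const P R Unit b
    rw [map_mul]
  | succ n =>
    rw [Hn_succ] at hg ⊢
    induction hg using Submodule.span_induction with
    | mem z hz =>
      obtain ⟨b, g', hg', rfl⟩ := hz
      refine Submodule.subset_span ⟨a * b, g', hg', ?_⟩
      rw [map_mul]; simp only [mul_assoc]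
    | zero => rw [mul_zero]; exact Submodule.zero_mem _
    | add x y _ _ hx hy => rw [mul_add]; exact Submodule.add_mem _ hx hy
    | smul c x _ hx => rw [mul_smul_comm]; exact Submodule.smul_mem _ c hx

theorem Hn_mul (n m : ℕ) (g h : FreeOver P R Unit) (hg : g ∈ Hn P R n) (hh : h ∈ Hn P R m) :
    g * h ∈ Hn P R (n + m) := by
  induction n generalizing g with
  | zero =>
    rw [Hn_zero] at hg
    obtain ⟨b, rfl⟩ := hg
    rw [zero_add]
    exact const_mul_Hn b m h hh
  | succ n ih =>
    rw [Hn_succ] at hg
    have e : n + 1 + m = (n + m) + 1 := by omega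
    rw [e, Hn_succ]
    induction hg using Submodule.span_induction with
    | mem z hz =>
      obtain ⟨b, g', hg', rfl⟩ := hz
      refine Submodule.subset_span ⟨b, g' * h, ih g' hg', ?_⟩
      simp only [mul_assoc]
    | zero => rw [zero_mul]; exact Submodule.zero_mem _
    | add x y _ _ hx hy => rw [add_mul]; exact Submodule.add_mem _ hx hy
    | smul c x _ hx => rw [smul_mul_assoc]; exact Submodule.smul_mem _ c hx

theorem var_mem_Hn : var P R Unit () ∈ Hn P R 1 := by
  rw [Hn_succ]
  refine Submodule.subset_span ⟨1, 1, ⟨1, ?_⟩, ?_⟩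
  · change const P R Unit 1 = 1
    rw [map_one]
  · rw [map_one, one_mul, mul_one]

theorem mem_iSup_Hn (f : FreeOver P R Unit) : f ∈ ⨆ n, Hn P R n := by
  induction f using induct with
  | hc a => exact Submodule.mem_iSup_of_mem 0 ⟨a, rfl⟩
  | hv i => exact Submodule.mem_iSup_of_mem 1 var_mem_Hn
  | hadd f g hf hg => exact Submodule.add_mem _ hf hg
  | hmul f g hf hg =>
    induction hf using Submodule.iSup_induction' with
    | mem n x hx =>
      induction hg using Submodule.iSup_induction' with
      | mem m y hy => exact Submodule.mem_iSup_of_mem (n + m) (Hn_mul n m x y hx hy)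
      | zero => rw [mul_zero]; exact Submodule.zero_mem _
      | add y y' _ _ h1 h2 => rw [mul_add]; exact Submodule.add_mem _ h1 h2
    | zero => rw [zero_mul]; exact Submodule.zero_mem _
    | add x x' _ _ h1 h2 => rw [add_mul]; exact Submodule.add_mem _ h1 h2

end

theorem p_HN : S_HN := by
  intro P R _ _ _ f
  obtain ⟨g, hg, hs⟩ := (Submodule.mem_iSup_iff_exists_finsupp _ _).mp (mem_iSup_Hn f)
  refine ⟨g.support.sup id + 1, g, hg, ?_⟩
  rw [← hs, Finsupp.sum]
  apply Finset.sum_subset
  · intro n hn
    rw [Finset.mem_range]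
    exact Nat.lt_succ_of_le (Finset.le_sup (f := id) hn)
  · intro n _ hn
    exact Finsupp.notMem_support_iff.mp hn

end Run7.h432.AC
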