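import Pool.Agent.Run7.h432.AC.Stm2

/-!
# Piece P3 of the project of helper432 on MP_4b1745_al
-/

set_option autoImplicit false

namespace Run7.h432.AC

open MvPolynomial TensorProduct

theorem p_P3 : S_P3 := by
  intro hS E _ _ _ f x z r m hz hg
  have h1 := hS E (DP E Unit) C (C_isDD E Unit) f x r m hg
    (jC E Unit z + mono r (X ((), 0, 0))) (by
      intro q hq
      rw [cf_add, jC, cf_mp, hz q hq, map_zero, zero_add, cf_mono, if_neg (ne_of_lt hq)])
  have h2 := hS E (DP E Unit) C (C_isDD E Unit) f x r m hg (jC E Unit z) (by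
      intro q hq
      rw [jC, cf_mp, hz q hq, map_zero])
  have e1 : gg f (x + z) r =
      (ev (mp C (C_isDD E Unit)) (mp C (C_isDD E Unit) x +
        (jC E Unit z + mono r (X ((), 0, 0)))) f - mp C (C_isDD E Unit) (va f x)) -
      (ev (mp C (C_isDD E Unit)) (mp C (C_isDD E Unit) x + jC E Unit z) f -
        mp C (C_isDD E Unit) (va f x)) := by
    have e2 : jC E Unit (va f (x + z)) =
        ev (mp C (C_isDD E Unit)) (mp C (C_isDD E Unit) x + jC E Unit z) f := by
      rw [va, ev_hom, map_add]
      rfl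
    rw [gg, e2, map_add, add_assoc]
    unfold jC
    abel
  intro q hq
  rw [e1, cf_sub, h1 q hq, h2 q hq, sub_zero]

end Run7.h432.AC
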